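import Mathlib

/-!
# Lattice counting for the average finite pi-adic complexity

`R` is a domain which is free of rank `d` over `ℤ`, `b` a basis. We work with the maximum norm
`nrm b` of the coordinates.
-/

namespace Pool.Agent.H84.PiAdic

open Finset

variable {R : Type*} [CommRing R] {d : ℕ} (b : Module.Basis (Fin d) ℤ R)

/-- The maximum norm of the coordinates. -/
noncomputable def nrm (x : R) : ℕ := univ.sup fun i => (b.repr x i).natAbs

lemma coord_le (x : R) (i : Fin d) : (b.repr x i).natAbs ≤ nrm b x :=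
  Finset.le_sup (f := fun i => (b.repr x i).natAbs) (mem_univ i)

lemma nrm_le_iff (x : R) (m : ℕ) : nrm b x ≤ m ↔ ∀ i, (b.repr x i).natAbs ≤ m := by
  simp [nrm]

lemma nrm_zero : nrm b 0 = 0 := by
  rw [← Nat.le_zero, nrm_le_iff]
  simp

lemma nrm_eq_zero {x : R} (h : nrm b x = 0) : x = 0 := by
  apply b.repr.injective
  ext i
  have := coord_le b x i
  rw [h] at this
  simpa using this

lemma nrm_pos {x : R} (h : x ≠ 0) : 1 ≤ nrm b x := by
  rw [Nat.one_le_iff_ne_zero]
  exact fun h' => h (nrm_eq_zero b h')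

lemma nrm_add_le (x y : R) : nrm b (x + y) ≤ nrm b x + nrm b y := by
  rw [nrm_le_iff]
  intro i
  have h1 := coord_le b x i
  have h2 := coord_le b y i
  have h3 : b.repr (x + y) i = b.repr x i + b.repr y i := by simp
  rw [h3]
  exact (Int.natAbs_add_le _ _).trans (add_le_add h1 h2)

lemma nrm_neg (x : R) : nrm b (-x) = nrm b x := by
  unfold nrm
  simp

lemma nrm_sub_le (x y : R) : nrm b (x - y) ≤ nrm b x + nrm b y := by
  rw [sub_eq_add_neg]
  exact (nrm_add_le b _ _).trans (by rw [nrm_neg])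

lemma nrm_zsmul (k : ℤ) (x : R) : nrm b (k • x) = k.natAbs * nrm b x := by
  apply le_antisymm
  · rw [nrm_le_iff]
    intro i
    have h3 : b.repr (k • x) i = k * b.repr x i := by
      rw [map_smul, Finsupp.smul_apply, smul_eq_mul]
    rw [h3, Int.natAbs_mul]
    exact Nat.mul_le_mul_left _ (coord_le b x i)
  · rcases Nat.eq_zero_or_pos d with hd | hd
    · subst hd
      have : nrm b x = 0 := by simp [nrm]
      simp [this]
    · have : Nonempty (Fin d) := ⟨⟨0, hd⟩⟩
      obtain ⟨i, -, hi⟩ := Finset.exists_mem_eq_sup (univ : Finset (Fin d)) univ_nonempty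
        (fun i => (b.repr x i).natAbs)
      have h3 : b.repr (k • x) i = k * b.repr x i := by
        rw [map_smul, Finsupp.smul_apply, smul_eq_mul]
      have h4 := coord_le b (k • x) i
      rw [h3, Int.natAbs_mul] at h4
      have h5 : nrm b x = (b.repr x i).natAbs := hi
      rw [h5]
      exact h4

lemma nrm_sum_le {ι : Type*} (s : Finset ι) (f : ι → R) :
    nrm b (∑ i ∈ s, f i) ≤ ∑ i ∈ s, nrm b (f i) := by
  classical
  induction s using Finset.induction_on with
  | empty => simp [nrm_zero]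
  | insert a s ha ih =>
    rw [sum_insert ha, sum_insert ha]
    exact (nrm_add_le b _ _).trans (Nat.add_le_add_left ih _)

lemma exists_mul_const : ∃ K : ℕ, 1 ≤ K ∧ ∀ x y : R, nrm b (x * y) ≤ K * nrm b x * nrm b y := by
  refine ⟨(∑ i, ∑ j, nrm b (b i * b j)) + 1, by omega, fun x y => ?_⟩
  have h1 : x * y = ∑ i, ∑ j, (b.repr x i * b.repr y j) • (b i * b j) := by
    conv_lhs => rw [← b.sum_repr x, ← b.sum_repr y]
    rw [Finset.sum_mul]
    refine Finset.sum_congr rfl fun i _ => ?_
    rw [Finset.mul_sum]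
    refine Finset.sum_congr rfl fun j _ => ?_
    simp only [zsmul_eq_mul, Int.cast_mul]
    ring
  rw [h1]
  refine (nrm_sum_le b _ _).trans ?_
  have h2 : ∀ i : Fin d, nrm b (∑ j, (b.repr x i * b.repr y j) • (b i * b j)) ≤
      ∑ j, nrm b x * nrm b y * nrm b (b i * b j) := by
    intro i
    refine (nrm_sum_le b _ _).trans ?_
    refine Finset.sum_le_sum fun j _ => ?_
    rw [nrm_zsmul, Int.natAbs_mul]
    exact Nat.mul_le_mul_right _ (Nat.mul_le_mul (coord_le b x i) (coord_le b y j))
  refine (Finset.sum_le_sum fun i _ => h2 i).trans ?_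
  have h3 : ∑ i, ∑ j, nrm b x * nrm b y * nrm b (b i * b j) =
      nrm b x * nrm b y * ∑ i, ∑ j, nrm b (b i * b j) := by
    rw [Finset.mul_sum]
    refine Finset.sum_congr rfl fun i _ => ?_
    rw [Finset.mul_sum]
  rw [h3]
  calc nrm b x * nrm b y * ∑ i, ∑ j, nrm b (b i * b j)
      ≤ nrm b x * nrm b y * ((∑ i, ∑ j, nrm b (b i * b j)) + 1) :=
        Nat.mul_le_mul_left _ (Nat.le_succ _)
    _ = _ := by ring

/-- The box of elements of norm at most `m`. -/
noncomputable def box (m : ℕ) : Finset R :=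
  (Fintype.piFinset fun _ : Fin d => Finset.Icc (-(m : ℤ)) m).map
    b.equivFun.symm.toEquiv.toEmbedding

lemma mem_box {x : R} {m : ℕ} : x ∈ box b m ↔ nrm b x ≤ m := by
  unfold box
  rw [Finset.mem_map, nrm_le_iff]
  constructor
  · rintro ⟨f, hf, rfl⟩ i
    rw [Fintype.mem_piFinset] at hf
    have h1 := Finset.mem_Icc.1 (hf i)
    have h2 : b.repr (b.equivFun.symm f) i = f i := by
      have := congrFun (b.equivFun.apply_symm_apply f) i
      simpa using this
    have h3 : (b.repr (b.equivFun.symm.toEquiv.toEmbedding f) i) = f i := h2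
    rw [h3]
    omega
  · intro h
    refine ⟨b.equivFun x, ?_, ?_⟩
    · rw [Fintype.mem_piFinset]
      intro i
      rw [Finset.mem_Icc]
      have := h i
      have h2 : b.equivFun x i = b.repr x i := rfl
      rw [h2]
      omega
    · exact b.equivFun.symm_apply_apply x

lemma card_box (m : ℕ) : (box b m).card = (2 * m + 1) ^ d := by
  unfold box
  rw [Finset.card_map, Fintype.card_piFinset]
  simp only [Int.card_Icc, Finset.prod_const, Finset.card_univ, Fintype.card_fin]
  congr 1
  omega

variable [IsDomain R]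

/-- The index of a principal ideal is bounded in terms of the norm of the generator. -/
lemma card_quot_span_le {K : ℕ} (hK : ∀ x y : R, nrm b (x * y) ≤ K * nrm b x * nrm b y)
    {x : R} (hx : x ≠ 0) :
    Finite (R ⧸ Ideal.span {x}) ∧
      Nat.card (R ⧸ Ideal.span {x}) ≤ (2 * (K * nrm b x) + 1) ^ d := by
  have : Module.Free ℤ R := Module.Free.of_basis b
  have : Module.Finite ℤ R := Module.Finite.of_basis b
  have hne : Ideal.span {x} ≠ ⊥ := by
    rw [Ne, Ideal.span_singleton_eq_bot]
    exact hx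
  have hfin : Finite (R ⧸ Ideal.span {x}) := Ideal.finiteQuotientOfFreeOfNeBot _ hne
  refine ⟨hfin, ?_⟩
  set M := Nat.card (R ⧸ Ideal.span {x}) with hM
  have hMpos : 0 < M := Nat.card_pos
  have h1 : (M : R) ∈ Ideal.span {x} := by
    rw [← Ideal.Quotient.eq_zero_iff_mem, map_natCast]
    have := card_nsmul_eq_zero' (G := R ⧸ Ideal.span {x}) (x := 1)
    simpa using this
  obtain ⟨x', hx'⟩ := Ideal.mem_span_singleton'.1 h1
  have hsurj : ∀ y : R, ∃ z : R, nrm b z ≤ K * nrm b x ∧ y - z ∈ Ideal.span {x} := by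
    intro y
    set w : R := ∑ i, (b.repr (y * x') i / (M : ℤ)) • b i with hw
    set r : R := ∑ i, (b.repr (y * x') i % (M : ℤ)) • b i with hr
    have h2 : y * x' = (M : R) * w + r := by
      conv_lhs => rw [← b.sum_repr (y * x')]
      rw [hw, hr, Finset.mul_sum, ← Finset.sum_add_distrib]
      refine Finset.sum_congr rfl fun i _ => ?_
      conv_lhs => rw [← Int.mul_ediv_add_emod (b.repr (y * x') i) (M : ℤ)]
      rw [add_smul, mul_smul]
      congr 1
      simp
    have h3 : nrm b r ≤ M := by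
      rw [nrm_le_iff]
      intro i
      have h4 : b.repr r i = b.repr (y * x') i % (M : ℤ) := by
        rw [hr]
        exact congrFun (b.repr_sum_self fun i => b.repr (y * x') i % (M : ℤ)) i
      rw [h4]
      have h5 := Int.emod_nonneg (b.repr (y * x') i) (by exact_mod_cast hMpos.ne' : (M : ℤ) ≠ 0)
      have h6 := Int.emod_lt_of_pos (b.repr (y * x') i) (by exact_mod_cast hMpos : (0 : ℤ) < M)
      omega
    refine ⟨y - x * w, ?_, ?_⟩
    · have h4 : ((M : ℤ)) • (y - x * w) = x * r := by
        have h5 : r = y * x' - (M : R) * w := by rw [h2]; ring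
        rw [h5, ← hx']
        simp only [zsmul_eq_mul, Int.cast_natCast]
        rw [← hx']
        ring
      have h5 := nrm_zsmul b (M : ℤ) (y - x * w)
      rw [h4] at h5
      have h6 := hK x r
      rw [h5] at h6
      simp only [Int.natAbs_natCast] at h6
      have h7 : M * nrm b (y - x * w) ≤ M * (K * nrm b x) := by
        calc M * nrm b (y - x * w) ≤ K * nrm b x * nrm b r := h6
          _ ≤ K * nrm b x * M := Nat.mul_le_mul_left _ h3
          _ = M * (K * nrm b x) := by ring
      exact Nat.le_of_mul_le_mul_left h7 hMpos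
    · rw [sub_sub_cancel]
      exact Ideal.mul_mem_right _ _ (Ideal.mem_span_singleton_self x)
  have h8 : Function.Surjective
      (fun z : (box b (K * nrm b x)) => (Ideal.Quotient.mk (Ideal.span {x}) (z : R))) := by
    intro q
    obtain ⟨y, rfl⟩ := Ideal.Quotient.mk_surjective q
    obtain ⟨z, hz, hyz⟩ := hsurj y
    refine ⟨⟨z, (mem_box b).2 hz⟩, ?_⟩
    exact ((Ideal.Quotient.eq).2 hyz).symm
  have h9 := Nat.card_le_card_of_surjective _ h8
  have h10 : Nat.card (box b (K * nrm b x)) = (2 * (K * nrm b x) + 1) ^ d := by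
    rw [← card_box b, Nat.card_eq_fintype_card, Fintype.card_coe]
  rwa [h10] at h9


/-! ### Counting the residues with a short vector -/

section count

variable (p : R) (n : ℕ)

/-- The residue ring modulo `p ^ n`. -/
abbrev Q : Type _ := R ⧸ Ideal.span {p ^ n}

variable {p n}

/-- For a fixed nonzero `g` the number of residues `a` such that `a g` is congruent to a short
element. -/
lemma card_slice_le [Fintype (Q p n)] [DecidableEq (Q p n)] (hd : 1 ≤ d) {K : ℕ} (hK1 : 1 ≤ K)
    (hK : ∀ x y : R, nrm b (x * y) ≤ K * nrm b x * nrm b y) {m : ℕ} {g : R} (hg : g ≠ 0)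
    (hgm : nrm b g ≤ m) :
    (univ.filter fun a : Q p n => ∃ f ∈ box b m,
      a * Ideal.Quotient.mk _ g = Ideal.Quotient.mk _ f).card ≤ (18 * K * m) ^ d := by
  classical
  set mk : R →+* Q p n := Ideal.Quotient.mk (Ideal.span {p ^ n}) with hmk
  have hm1 : 1 ≤ m := (nrm_pos b hg).trans hgm
  -- multiplication by `g`
  let μ : Q p n →+ Q p n := AddMonoidHom.mulRight (mk g)
  have hμ : ∀ a, μ a = a * mk g := fun a => rfl
  set c := (univ.filter fun a : Q p n => μ a = 0).card with hc
  have hcpos : 1 ≤ c := by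
    rw [hc, Nat.one_le_iff_ne_zero, ← Nat.pos_iff_ne_zero, Finset.card_pos]
    exact ⟨0, by simp⟩
  -- the kernel is as large as the quotient by the ideal of `g`
  have hc2 : c = Nat.card ((Q p n) ⧸ (Ideal.span {mk g} : Ideal (Q p n))) := by
    let ν : Q p n →ₗ[Q p n] Q p n := LinearMap.mulRight (Q p n) (mk g)
    have hν : ∀ a, ν a = a * mk g := fun a => rfl
    have h1 : LinearMap.range ν = Ideal.span {mk g} := by
      ext y
      rw [LinearMap.mem_range, Ideal.mem_span_singleton']
      rfl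
    have h2 := Submodule.card_eq_card_quotient_mul_card (LinearMap.range ν)
    have h3 := Submodule.card_eq_card_quotient_mul_card (LinearMap.ker ν)
    have h4 : Nat.card ((Q p n) ⧸ LinearMap.ker ν) = Nat.card (LinearMap.range ν) :=
      Nat.card_congr ν.quotKerEquivRange.toEquiv
    have h5 : c = Nat.card (LinearMap.ker ν) := by
      rw [hc, ← Fintype.card_subtype, ← Nat.card_eq_fintype_card]
      exact Nat.card_congr (Equiv.subtypeEquivRight fun a => by
        rw [LinearMap.mem_ker, hν, hμ])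
    rw [h4] at h3
    rw [← h1, h5]
    have h6 : 0 < Nat.card (LinearMap.range ν) := Nat.card_pos
    rw [h3] at h2
    nlinarith
  -- nonzero elements of the ideal have large norm
  have hlow : ∀ x : R, x ≠ 0 → (∃ a, μ a = mk x) → c ≤ (3 * K * nrm b x) ^ d := by
    rintro x hx ⟨a, ha⟩
    obtain ⟨hfin, h1⟩ := card_quot_span_le b hK hx
    have h2 : Nat.card ((Q p n) ⧸ (Ideal.span {mk g} : Ideal (Q p n))) ≤
        Nat.card (R ⧸ Ideal.span {x}) := by
      let ρ : R →+* (Q p n) ⧸ (Ideal.span {mk g} : Ideal (Q p n)) :=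
        (Ideal.Quotient.mk _).comp mk
      have hρ : ∀ y ∈ Ideal.span {x}, ρ y = 0 := by
        intro y hy
        obtain ⟨z, rfl⟩ := Ideal.mem_span_singleton'.1 hy
        have h3 : ρ x = 0 := by
          change Ideal.Quotient.mk _ (mk x) = 0
          rw [Ideal.Quotient.eq_zero_iff_mem, Ideal.mem_span_singleton']
          exact ⟨a, ha⟩
        rw [map_mul, h3, mul_zero]
      refine Nat.card_le_card_of_surjective (Ideal.Quotient.lift _ ρ hρ) ?_
      apply Ideal.Quotient.lift_surjective_of_surjective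
      exact Ideal.Quotient.mk_surjective.comp Ideal.Quotient.mk_surjective
    rw [hc2]
    refine h2.trans (h1.trans (Nat.pow_le_pow_left ?_ d))
    have h3 := Nat.mul_le_mul hK1 (nrm_pos b hx)
    nlinarith
  -- the short elements of the ideal
  set T := (box b m).filter fun f => ∃ a, μ a = mk f with hT
  have hstep : (univ.filter fun a : Q p n => ∃ f ∈ box b m, a * mk g = mk f).card ≤
      T.card * c := by
    have h1 : (univ.filter fun a : Q p n => ∃ f ∈ box b m, a * mk g = mk f) ⊆
        T.biUnion fun f => univ.filter fun a : Q p n => μ a = mk f := by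
      intro a ha
      obtain ⟨f, hf, haf⟩ := (Finset.mem_filter.1 ha).2
      rw [Finset.mem_biUnion]
      exact ⟨f, Finset.mem_filter.2 ⟨hf, a, haf⟩, Finset.mem_filter.2 ⟨mem_univ _, haf⟩⟩
    refine (Finset.card_le_card h1).trans (Finset.card_biUnion_le_card_mul _ _ _ ?_)
    intro f hf
    obtain ⟨a₀, ha₀⟩ := (Finset.mem_filter.1 hf).2
    rw [hc]
    refine Finset.card_le_card_of_injOn (fun a => a - a₀) ?_ ?_
    · intro a ha
      have h2 := (Finset.mem_filter.1 ha).2
      refine Finset.mem_coe.2 (Finset.mem_filter.2 ⟨mem_univ _, ?_⟩)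
      rw [map_sub, h2, ha₀, sub_self]
    · intro a _ a' _ h
      exact sub_left_injective h
  -- packing
  set s := Nat.findGreatest (fun s => (3 * K * (2 * s)) ^ d < c) m with hs
  have hP0 : (3 * K * (2 * 0)) ^ d < c := by
    have : (3 * K * (2 * 0)) = 0 := by ring
    rw [this, zero_pow (by omega)]
    exact hcpos
  have hPs : (3 * K * (2 * s)) ^ d < c :=
    Nat.findGreatest_spec (P := fun s => (3 * K * (2 * s)) ^ d < c) (Nat.zero_le m) hP0
  have hcm : c ≤ (3 * K * m) ^ d :=
    (hlow g hg ⟨1, by rw [hμ, one_mul]⟩).trans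
      (Nat.pow_le_pow_left (Nat.mul_le_mul_left _ hgm) d)
  have hsm : 2 * s < m := by
    by_contra hcon
    push Not at hcon
    have h1 : (3 * K * m) ^ d ≤ (3 * K * (2 * s)) ^ d :=
      Nat.pow_le_pow_left (Nat.mul_le_mul_left _ hcon) d
    omega
  have hPs1 : c ≤ (3 * K * (2 * (s + 1))) ^ d := by
    by_contra hcon
    push Not at hcon
    have h1 := Nat.findGreatest_is_greatest (P := fun s => (3 * K * (2 * s)) ^ d < c)
      (n := m) (k := s + 1) (by omega) (by omega)
    exact h1 hcon
  have hpack : T.card * (2 * s + 1) ^ d ≤ (2 * (m + s) + 1) ^ d := by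
    rw [← card_box b s, ← card_box b (m + s), ← Finset.card_product]
    refine Finset.card_le_card_of_injOn (fun z => z.1 + z.2) ?_ ?_
    · rintro ⟨f, u⟩ hz
      have h1 := Finset.mem_product.1 (Finset.mem_coe.1 hz)
      have h2 : nrm b f ≤ m := (mem_box b).1 (Finset.mem_filter.1 h1.1).1
      have h3 : nrm b u ≤ s := (mem_box b).1 h1.2
      exact Finset.mem_coe.2 ((mem_box b).2 ((nrm_add_le b _ _).trans (add_le_add h2 h3)))
    · rintro ⟨f, u⟩ hz ⟨f', u'⟩ hz' h
      have h1 := Finset.mem_product.1 (Finset.mem_coe.1 hz)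
      have h1' := Finset.mem_product.1 (Finset.mem_coe.1 hz')
      have h3 : nrm b u ≤ s := (mem_box b).1 h1.2
      have h3' : nrm b u' ≤ s := (mem_box b).1 h1'.2
      obtain ⟨a, ha⟩ := (Finset.mem_filter.1 h1.1).2
      obtain ⟨a', ha'⟩ := (Finset.mem_filter.1 h1'.1).2
      simp only at h ha ha' h3 h3'
      have h4 : f - f' = u' - u := by linear_combination h
      have h5 : f - f' = 0 := by
        by_contra hne
        have h6 := hlow (f - f') hne ⟨a - a', by rw [map_sub, map_sub, ha, ha']⟩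
        have h7 : nrm b (f - f') ≤ 2 * s := by
          rw [h4]
          exact (nrm_sub_le b _ _).trans (by omega)
        have h8 := h6.trans (Nat.pow_le_pow_left (Nat.mul_le_mul_left (3 * K) h7) d)
        omega
      have h9 : f = f' := sub_eq_zero.1 h5
      subst h9
      have h10 : u = u' := by
        rw [sub_self] at h4
        exact (sub_eq_zero.1 h4.symm).symm
      rw [h10]
  calc (univ.filter fun a : Q p n => ∃ f ∈ box b m, a * mk g = mk f).card
      ≤ T.card * c := hstep
    _ ≤ T.card * (3 * K * (2 * (s + 1))) ^ d := Nat.mul_le_mul_left _ hPs1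
    _ ≤ T.card * (6 * K * (2 * s + 1)) ^ d := by
        refine Nat.mul_le_mul_left _ (Nat.pow_le_pow_left ?_ d)
        nlinarith
    _ = (6 * K) ^ d * (T.card * (2 * s + 1) ^ d) := by rw [mul_pow]; ring
    _ ≤ (6 * K) ^ d * (2 * (m + s) + 1) ^ d := Nat.mul_le_mul_left _ hpack
    _ ≤ (6 * K) ^ d * (3 * m) ^ d :=
        Nat.mul_le_mul_left _ (Nat.pow_le_pow_left (by omega) d)
    _ = (18 * K * m) ^ d := by rw [← mul_pow]; ring_nf

/-- `a` has a short nonzero vector: there are `f, g`, not both zero, of norm at most `m`, with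
`a g` congruent to `f`. -/
def Short (p : R) (n m : ℕ) (a : Q p n) : Prop :=
  ∃ f ∈ box b m, ∃ g ∈ box b m, (f ≠ 0 ∨ g ≠ 0) ∧
    a * Ideal.Quotient.mk _ g = Ideal.Quotient.mk _ f

open Classical in
/-- The number of residues with a nonzero vector of norm at most `m`. -/
lemma card_short_le [Fintype (Q p n)] (hd : 1 ≤ d) {K : ℕ} (hK1 : 1 ≤ K)
    (hK : ∀ x y : R, nrm b (x * y) ≤ K * nrm b x * nrm b y) {m : ℕ} (hm : 1 ≤ m) :
    (univ.filter fun a : Q p n => Short b p n m a).card ≤ (54 * K * m ^ 2) ^ d := by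
  by_cases h : ∃ f ∈ box b m, f ≠ 0 ∧ f ∈ Ideal.span {p ^ n}
  · obtain ⟨f, hf, hf0, hfp⟩ := h
    obtain ⟨hfin, h1⟩ := card_quot_span_le b hK hf0
    have h2 : Nat.card (Q p n) ≤ Nat.card (R ⧸ Ideal.span {f}) := by
      refine Nat.card_le_card_of_surjective
        (Ideal.Quotient.factor ((Ideal.span_singleton_le_iff_mem _).2 hfp)) ?_
      exact Ideal.Quotient.factor_surjective _
    calc (univ.filter fun a : Q p n => Short b p n m a).card
        ≤ (univ : Finset (Q p n)).card := Finset.card_filter_le _ _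
      _ = Nat.card (Q p n) := by rw [Nat.card_eq_fintype_card, Finset.card_univ]
      _ ≤ (2 * (K * nrm b f) + 1) ^ d := h2.trans h1
      _ ≤ (54 * K * m ^ 2) ^ d := by
          refine Nat.pow_le_pow_left ?_ d
          have h3 := (mem_box b).1 hf
          have h4 : K * nrm b f ≤ K * m := Nat.mul_le_mul_left _ h3
          have h5 : 1 ≤ K * m := Nat.mul_le_mul hK1 hm
          have h6 : K * m ≤ K * m ^ 2 := Nat.mul_le_mul_left _ (by nlinarith)
          nlinarith
  · push Not at h
    have h1 : (univ.filter fun a : Q p n => Short b p n m a) ⊆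
        ((box b m).filter fun g => g ≠ 0).biUnion fun g =>
          univ.filter fun a : Q p n => ∃ f ∈ box b m,
            a * Ideal.Quotient.mk _ g = Ideal.Quotient.mk _ f := by
      intro a ha
      obtain ⟨f, hf, g, hg, hfg, hag⟩ := (Finset.mem_filter.1 ha).2
      have hg0 : g ≠ 0 := by
        rintro rfl
        rcases hfg with hf0 | hg0
        · apply h f hf hf0
          rw [map_zero, mul_zero] at hag
          exact Ideal.Quotient.eq_zero_iff_mem.1 hag.symm
        · exact hg0 rfl
      rw [Finset.mem_biUnion]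
      exact ⟨g, Finset.mem_filter.2 ⟨hg, hg0⟩, Finset.mem_filter.2 ⟨mem_univ _, f, hf, hag⟩⟩
    calc (univ.filter fun a : Q p n => Short b p n m a).card
        ≤ _ := Finset.card_le_card h1
      _ ≤ ((box b m).filter fun g => g ≠ 0).card * (18 * K * m) ^ d := by
          refine Finset.card_biUnion_le_card_mul _ _ _ ?_
          intro g hg
          obtain ⟨hgm, hg0⟩ := Finset.mem_filter.1 hg
          exact card_slice_le b hd hK1 hK hg0 ((mem_box b).1 hgm)
      _ ≤ (box b m).card * (18 * K * m) ^ d :=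
          Nat.mul_le_mul_right _ (Finset.card_filter_le _ _)
      _ = (2 * m + 1) ^ d * (18 * K * m) ^ d := by rw [card_box]
      _ ≤ (3 * m) ^ d * (18 * K * m) ^ d :=
          Nat.mul_le_mul_right _ (Nat.pow_le_pow_left (by omega) d)
      _ = (54 * K * m ^ 2) ^ d := by rw [← mul_pow]; ring_nf

end count

/-! ### A covering lemma -/

/-- Growth of an increasing chain of subsets of a finite abelian group. -/
lemma growth {G : Type*} [AddCommGroup G] [Fintype G] [DecidableEq G] (D : ℕ → Finset G)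
    (A : Finset G) (hA : A ⊆ D 1) (hadd : ∀ k, ∀ x ∈ D k, ∀ y ∈ A, x + y ∈ D (k + 1))
    (hmono : ∀ k, D k ⊆ D (k + 1)) (hneg : ∀ y ∈ A, -y ∈ A) (hA0 : A.Nonempty)
    (hgen : AddSubmonoid.closure (A : Set G) = ⊤) (i : ℕ) :
    D (3 * i + 1) = univ ∨ (i + 1) * A.card ≤ (D (3 * i + 1)).card := by
  induction i with
  | zero =>
    right
    simpa using Finset.card_le_card hA
  | succ i ih =>
    have hm : Monotone D := monotone_nat_of_le_succ hmono
    rcases ih with ih | ih
    · left
      rw [Finset.eq_univ_iff_forall] at ih ⊢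
      exact fun x => hm (by omega) (ih x)
    · by_cases hstab : D (3 * i + 2) = D (3 * i + 3)
      · left
        have h1 : ∀ x : G, ∀ z ∈ D (3 * i + 2), z + x ∈ D (3 * i + 2) := by
          intro x
          have hx : x ∈ AddSubmonoid.closure (A : Set G) := by rw [hgen]; trivial
          induction hx using AddSubmonoid.closure_induction with
          | mem x hx =>
            intro z hz
            have := hadd _ z hz x hx
            rw [hstab]
            exact this
          | zero => intro z hz; simpa using hz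
          | add x y _ _ hx hy =>
            intro z hz
            rw [← add_assoc]
            exact hy _ (hx z hz)
        obtain ⟨z, hz⟩ := hA0
        have hz' : z ∈ D (3 * i + 2) := hm (by omega) (hA hz)
        rw [Finset.eq_univ_iff_forall]
        intro x
        have := h1 (x - z) z hz'
        rw [add_sub_cancel] at this
        exact hm (by omega) this
      · right
        obtain ⟨g, hg, hg'⟩ := Finset.exists_of_ssubset ((hmono (3 * i + 2)).ssubset_of_ne hstab)
        have h1 : Disjoint (D (3 * i + 1)) (A.map (addLeftEmbedding g)) := by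
          rw [Finset.disjoint_left]
          intro x hx hx'
          obtain ⟨y, hy, rfl⟩ := Finset.mem_map.1 hx'
          apply hg'
          have := hadd _ _ hx (-y) (hneg y hy)
          simpa using this
        have h2 : D (3 * i + 1) ∪ A.map (addLeftEmbedding g) ⊆ D (3 * (i + 1) + 1) := by
          apply Finset.union_subset
          · exact hm (by omega)
          · intro x hx
            obtain ⟨y, hy, rfl⟩ := Finset.mem_map.1 hx
            exact hadd _ g hg y hy
        have h3 := Finset.card_le_card h2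
        rw [Finset.card_union_of_disjoint h1, Finset.card_map] at h3
        calc (i + 1 + 1) * A.card = (i + 1) * A.card + A.card := by ring
          _ ≤ _ := by omega

section cover

variable {p : R} {n : ℕ}

omit [IsDomain R] in
lemma box_mono {m m' : ℕ} (h : m ≤ m') : box b m ⊆ box b m' := by
  intro x hx
  exact (mem_box b).2 (((mem_box b).1 hx).trans h)

omit [IsDomain R] in
lemma nrm_basis (i : Fin d) : nrm b (b i) ≤ 1 := by
  rw [nrm_le_iff]
  intro j
  rw [b.repr_self, Finsupp.single_apply]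
  split_ifs <;> simp

open Classical in
omit [IsDomain R] in
/-- Every class is `x - a y` with `x, y` of bounded norm; the bound depends on the number of the
classes `x - a y` with `x, y` of norm at most `r`. -/
lemma exists_cover_aux [Fintype (Q p n)] {r : ℕ} (hr : 1 ≤ r) (a : Q p n) (A : Finset (Q p n))
    (hA : A = (box b r ×ˢ box b r).image fun z =>
      Ideal.Quotient.mk _ z.1 - a * Ideal.Quotient.mk _ z.2) (c : Q p n) :
    ∃ x ∈ box b ((3 * (Fintype.card (Q p n) / A.card) + 1) * r),
      ∃ y ∈ box b ((3 * (Fintype.card (Q p n) / A.card) + 1) * r),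
      Ideal.Quotient.mk _ x - a * Ideal.Quotient.mk _ y = c := by
  set mk : R →+* Q p n := Ideal.Quotient.mk (Ideal.span {p ^ n}) with hmk
  set D : ℕ → Finset (Q p n) := fun k => (box b (k * r) ×ˢ box b (k * r)).image fun z =>
      mk z.1 - a * mk z.2 with hD
  have memD : ∀ k q, q ∈ D k ↔ ∃ x y, nrm b x ≤ k * r ∧ nrm b y ≤ k * r ∧ mk x - a * mk y = q := by
    intro k q
    simp only [hD, Finset.mem_image, Finset.mem_product, mem_box, Prod.exists, and_assoc]
  have hAD : A = D 1 := by
    rw [hA, hD]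
    simp only [one_mul]
  have hgen : AddSubmonoid.closure (A : Set (Q p n)) = ⊤ := by
    rw [eq_top_iff]
    intro q _
    obtain ⟨x, rfl⟩ := Ideal.Quotient.mk_surjective q
    have h1 : ∀ i, mk (b i) ∈ A ∧ -mk (b i) ∈ A := by
      intro i
      rw [hAD, memD, memD]
      have h2 := (nrm_basis b i).trans (hr.trans (Nat.le_mul_of_pos_left r one_pos))
      exact ⟨⟨b i, 0, h2, by rw [nrm_zero]; exact Nat.zero_le _, by simp⟩,
        ⟨-b i, 0, by rwa [nrm_neg], by rw [nrm_zero]; exact Nat.zero_le _, by simp⟩⟩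
    change mk x ∈ _
    rw [← b.sum_repr x, map_sum]
    refine AddSubmonoid.sum_mem _ fun i _ => ?_
    have h3 : mk (b.repr x i • b i) = b.repr x i • mk (b i) := map_zsmul mk _ _
    rw [h3]
    rcases Int.eq_nat_or_neg (b.repr x i) with ⟨k, hk | hk⟩
    · rw [hk, natCast_zsmul]
      exact AddSubmonoid.nsmul_mem _ (AddSubmonoid.subset_closure (h1 i).1) k
    · rw [hk, neg_smul, natCast_zsmul, ← smul_neg]
      exact AddSubmonoid.nsmul_mem _ (AddSubmonoid.subset_closure (h1 i).2) k
  have hadd : ∀ k, ∀ x ∈ D k, ∀ y ∈ A, x + y ∈ D (k + 1) := by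
    intro k q hq q' hq'
    rw [hAD, memD] at hq'
    rw [memD] at hq ⊢
    obtain ⟨x, y, hx, hy, rfl⟩ := hq
    obtain ⟨x', y', hx', hy', rfl⟩ := hq'
    refine ⟨x + x', y + y', ?_, ?_, ?_⟩
    · refine (nrm_add_le b _ _).trans ?_
      rw [add_mul]
      exact add_le_add hx hx'
    · refine (nrm_add_le b _ _).trans ?_
      rw [add_mul]
      exact add_le_add hy hy'
    · rw [map_add, map_add]
      ring
  have hmono : ∀ k, D k ⊆ D (k + 1) := by
    intro k q hq
    rw [memD] at hq ⊢
    obtain ⟨x, y, hx, hy, rfl⟩ := hq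
    have h1 : k * r ≤ (k + 1) * r := Nat.mul_le_mul_right _ (Nat.le_succ k)
    exact ⟨x, y, hx.trans h1, hy.trans h1, rfl⟩
  have hneg : ∀ y ∈ A, -y ∈ A := by
    intro q hq
    rw [hAD, memD] at hq ⊢
    obtain ⟨x, y, hx, hy, rfl⟩ := hq
    refine ⟨-x, -y, by rwa [nrm_neg], by rwa [nrm_neg], ?_⟩
    rw [map_neg, map_neg]
    ring
  have hA0 : A.Nonempty := by
    refine ⟨0, ?_⟩
    rw [hAD, memD]
    exact ⟨0, 0, by rw [nrm_zero]; exact Nat.zero_le _, by rw [nrm_zero]; exact Nat.zero_le _,
      by simp⟩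
  have hmain := growth D A hAD.subset hadd hmono hneg hA0 hgen (Fintype.card (Q p n) / A.card)
  have huniv : D (3 * (Fintype.card (Q p n) / A.card) + 1) = univ := by
    rcases hmain with h | h
    · exact h
    · exfalso
      have h1 : (D (3 * (Fintype.card (Q p n) / A.card) + 1)).card ≤ Fintype.card (Q p n) :=
        Finset.card_le_univ _
      have h2 := Nat.lt_mul_div_succ (Fintype.card (Q p n)) (Finset.card_pos.2 hA0)
      rw [mul_comm] at h2
      omega
  have hc : c ∈ D (3 * (Fintype.card (Q p n) / A.card) + 1) := by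
    rw [huniv]
    exact mem_univ _
  obtain ⟨x, y, hx, hy, hxy⟩ := (memD _ _).1 hc
  exact ⟨x, (mem_box b).2 hx, y, (mem_box b).2 hy, hxy⟩

omit [IsDomain R] in
/-- The covering bound without any assumption on `a`. -/
lemma exists_cover_trivial [Fintype (Q p n)] (a c : Q p n) :
    ∃ x ∈ box b (4 * Fintype.card (Q p n)), ∃ y ∈ box b (4 * Fintype.card (Q p n)),
      Ideal.Quotient.mk _ x - a * Ideal.Quotient.mk _ y = c := by
  classical
  obtain ⟨x, hx, y, hy, h⟩ := exists_cover_aux b (le_refl 1) a _ rfl c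
  have h1 : ∀ N : ℕ, (3 * (Fintype.card (Q p n) / N) + 1) * 1 ≤ 4 * Fintype.card (Q p n) := by
    intro N
    have h2 := Nat.div_le_self (Fintype.card (Q p n)) N
    have h3 : 1 ≤ Fintype.card (Q p n) := Fintype.card_pos
    omega
  exact ⟨x, box_mono b (h1 _) hx, y, box_mono b (h1 _) hy, h⟩

omit [IsDomain R] in
/-- If there is no nonzero vector of norm at most `2 r` then every class is `x - a y` with `x, y`
of bounded norm. -/
lemma exists_cover [Fintype (Q p n)] {r : ℕ} (hr : 1 ≤ r) (a : Q p n)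
    (hinj : ¬ Short b p n (2 * r) a) (c : Q p n) :
    ∃ x ∈ box b ((3 * (Fintype.card (Q p n) / ((2 * r + 1) ^ d * (2 * r + 1) ^ d)) + 1) * r),
      ∃ y ∈ box b ((3 * (Fintype.card (Q p n) / ((2 * r + 1) ^ d * (2 * r + 1) ^ d)) + 1) * r),
      Ideal.Quotient.mk _ x - a * Ideal.Quotient.mk _ y = c := by
  classical
  have h1 : ((box b r ×ˢ box b r).image fun z =>
      (Ideal.Quotient.mk (Ideal.span {p ^ n}) z.1 : Q p n) -
        a * Ideal.Quotient.mk _ z.2).card = (2 * r + 1) ^ d * (2 * r + 1) ^ d := by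
    rw [Finset.card_image_of_injOn, Finset.card_product, card_box]
    rintro ⟨x, y⟩ hz ⟨x', y'⟩ hz' h
    have h2 := Finset.mem_product.1 (Finset.mem_coe.1 hz)
    have h2' := Finset.mem_product.1 (Finset.mem_coe.1 hz')
    simp only [mem_box] at h2 h2' h
    by_contra hne
    apply hinj
    refine ⟨x - x', (mem_box b).2 ((nrm_sub_le b _ _).trans (by omega)), y - y',
      (mem_box b).2 ((nrm_sub_le b _ _).trans (by omega)), ?_, ?_⟩
    · by_contra hcon
      push Not at hcon
      apply hne
      rw [sub_eq_zero.1 hcon.1, sub_eq_zero.1 hcon.2]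
    · rw [map_sub, map_sub]
      linear_combination -h
  obtain ⟨x, hx, y, hy, h⟩ := exists_cover_aux b hr a _ rfl c
  rw [h1] at hx hy
  exact ⟨x, hx, y, hy, h⟩

end cover

/-! ### Digits -/

/-- The numbers `0, ..., N - 1` are a complete system of residues modulo `p`, and `p ≠ 0`. -/
structure Digits (p : R) (N : ℕ) : Prop where
  two_le : 2 ≤ N
  ne_zero : p ≠ 0
  exists_digit : ∀ x : R, ∃ a < N, p ∣ x - (a : R)
  digit_unique : ∀ a < N, ∀ a' < N, p ∣ (a : R) - (a' : R) → a = a'

/-- The element with given digits. -/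
def val (p : R) {N n : ℕ} (a : Fin n → Fin N) : R := ∑ i, ((a i : ℕ) : R) * p ^ (i : ℕ)

omit [IsDomain R] in
lemma val_succ (p : R) {N n : ℕ} (a : Fin (n + 1) → Fin N) :
    val p a = ((a 0 : ℕ) : R) + p * val p (Fin.tail a) := by
  unfold val
  rw [Fin.sum_univ_succ, Finset.mul_sum]
  congr 1
  · simp
  · refine Finset.sum_congr rfl fun i _ => ?_
    simp only [Fin.tail, Fin.val_succ, pow_succ]
    ring

lemma val_injective {p : R} {N : ℕ} (h : Digits p N) (n : ℕ) :
    ∀ a a' : Fin n → Fin N, p ^ n ∣ val p a - val p a' → a = a' := by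
  induction n with
  | zero =>
    intro a a' _
    exact Subsingleton.elim _ _
  | succ n ih =>
    intro a a' haa
    rw [val_succ, val_succ] at haa
    have h1 : p ∣ ((a 0 : ℕ) : R) - ((a' 0 : ℕ) : R) := by
      have h2 : p ∣ ((a 0 : ℕ) : R) + p * val p (Fin.tail a) -
          (((a' 0 : ℕ) : R) + p * val p (Fin.tail a')) := (dvd_pow_self p (by omega)).trans haa
      obtain ⟨z, hz⟩ := h2
      exact ⟨z - val p (Fin.tail a) + val p (Fin.tail a'), by linear_combination hz⟩
    have h0 : a 0 = a' 0 := Fin.ext (h.digit_unique _ (a 0).2 _ (a' 0).2 h1)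
    rw [h0] at haa
    have h3 : p ^ n ∣ val p (Fin.tail a) - val p (Fin.tail a') := by
      obtain ⟨z, hz⟩ := haa
      refine ⟨z, ?_⟩
      apply mul_left_cancel₀ h.ne_zero
      rw [pow_succ] at hz
      linear_combination hz
    have h4 := ih _ _ h3
    rw [← Fin.cons_self_tail a, ← Fin.cons_self_tail a', h0, h4]

omit [IsDomain R] in
lemma val_surjective {p : R} {N : ℕ} (h : Digits p N) (n : ℕ) :
    ∀ x : R, ∃ a : Fin n → Fin N, p ^ n ∣ x - val p a := by
  induction n with
  | zero =>
    intro x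
    exact ⟨Fin.elim0, by simp⟩
  | succ n ih =>
    intro x
    obtain ⟨a0, ha0, y, hy⟩ := h.exists_digit x
    obtain ⟨a, z, hz⟩ := ih y
    refine ⟨Fin.cons ⟨a0, ha0⟩ a, z, ?_⟩
    rw [val_succ]
    simp only [Fin.cons_zero, Fin.tail_cons]
    rw [pow_succ]
    linear_combination hy + p * hz

/-- Sequences of digits of length `n` correspond to the residues modulo `p ^ n`. -/
noncomputable def digitsEquiv {p : R} {N : ℕ} (h : Digits p N) (n : ℕ) :
    (Fin n → Fin N) ≃ Q p n :=
  Equiv.ofBijective (fun a => Ideal.Quotient.mk _ (val p a)) (by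
    constructor
    · intro a a' haa
      have h1 : Ideal.Quotient.mk (Ideal.span {p ^ n}) (val p a) =
        Ideal.Quotient.mk _ (val p a') := haa
      rw [Ideal.Quotient.eq, Ideal.mem_span_singleton] at h1
      exact val_injective h n _ _ h1
    · intro q
      obtain ⟨x, rfl⟩ := Ideal.Quotient.mk_surjective q
      obtain ⟨a, ha⟩ := val_surjective h n x
      refine ⟨a, ?_⟩
      change Ideal.Quotient.mk _ (val p a) = Ideal.Quotient.mk _ x
      symm
      rw [Ideal.Quotient.eq, Ideal.mem_span_singleton]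
      exact ha)

lemma digitsEquiv_apply {p : R} {N : ℕ} (h : Digits p N) (n : ℕ) (a : Fin n → Fin N) :
    digitsEquiv h n a = Ideal.Quotient.mk _ (val p a) := rfl

lemma card_Q {p : R} {N : ℕ} (h : Digits p N) (n : ℕ) [Fintype (Q p n)] :
    Fintype.card (Q p n) = N ^ n := by
  rw [← Fintype.card_congr (digitsEquiv h n)]
  simp

/-! ### Admissible pairs -/

section adm

variable {p : R} {n : ℕ}

/-- `a` is congruent to a fraction `f / g` with `g` invertible modulo `p` and `f, g` of norm at
most `m`. -/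
def Adm (p : R) (n m : ℕ) (a : Q p n) : Prop :=
  ∃ f ∈ box b m, ∃ g ∈ box b m, IsCoprime g p ∧ a * Ideal.Quotient.mk _ g = Ideal.Quotient.mk _ f

omit [IsDomain R] in
lemma Adm.mono {m m' : ℕ} (h : m ≤ m') {a : Q p n} (ha : Adm b p n m a) : Adm b p n m' a := by
  obtain ⟨f, hf, g, hg, h1, h2⟩ := ha
  exact ⟨f, box_mono b h hf, g, box_mono b h hg, h1, h2⟩

omit [IsDomain R] in
lemma isUnit_mk {g : R} (hg : IsCoprime g p) :
    IsUnit (Ideal.Quotient.mk (Ideal.span {p ^ n}) g) := by
  obtain ⟨u, v, huv⟩ := hg.pow_right (n := n)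
  refine IsUnit.of_mul_eq_one (Ideal.Quotient.mk _ u) ?_
  rw [← map_mul, ← map_one (Ideal.Quotient.mk (Ideal.span {p ^ n})), Ideal.Quotient.eq,
    Ideal.mem_span_singleton]
  exact ⟨-v, by linear_combination huv⟩

open Classical in
omit [IsDomain R] in
lemma card_adm_le [Fintype (Q p n)] (m : ℕ) :
    (univ.filter fun a : Q p n => Adm b p n m a).card ≤ (2 * m + 1) ^ d * (2 * m + 1) ^ d := by
  rw [← card_box b m, ← Finset.card_product]
  refine (Finset.card_le_card ?_).trans
    (Finset.card_image_le (f := fun z : R × R =>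
      (Ideal.Quotient.mk (Ideal.span {p ^ n}) z.1) *
        Ring.inverse (Ideal.Quotient.mk (Ideal.span {p ^ n}) z.2)))
  intro a ha
  obtain ⟨f, hf, g, hg, hgp, hag⟩ := (Finset.mem_filter.1 ha).2
  rw [Finset.mem_image]
  refine ⟨(f, g), Finset.mem_product.2 ⟨hf, hg⟩, ?_⟩
  change Ideal.Quotient.mk _ f * Ring.inverse (Ideal.Quotient.mk _ g) = a
  rw [← hag, mul_assoc, Ring.mul_inverse_cancel _ (isUnit_mk hgp), mul_one]

omit [IsDomain R] in
/-- From a covering bound to an admissible pair. -/
lemma adm_of_cover {N : ℕ} (h : Digits p N) {K : ℕ}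
    (hK : ∀ x y : R, nrm b (x * y) ≤ K * nrm b x * nrm b y) {ρ : ℕ} (a : Q p n)
    (hc : ∀ c : Q p n, ∃ x ∈ box b ρ, ∃ y ∈ box b ρ,
      Ideal.Quotient.mk _ x - a * Ideal.Quotient.mk _ y = c) :
    Adm b p n ((N * nrm b 1 + K * nrm b p) * (ρ + 1)) a := by
  obtain ⟨α, rfl⟩ := Ideal.Quotient.mk_surjective a
  obtain ⟨a0, ha0, α', hα'⟩ := h.exists_digit α
  obtain ⟨x, hx, y, hy, hxy⟩ := hc (Ideal.Quotient.mk _ α')
  rw [mem_box] at hx hy
  have hN := h.two_le
  have h1 : nrm b ((a0 : ℕ) : R) ≤ N * nrm b 1 := by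
    have h2 : ((a0 : ℕ) : R) = (a0 : ℤ) • (1 : R) := by simp
    rw [h2, nrm_zsmul]
    simp only [Int.natAbs_natCast]
    exact Nat.mul_le_mul_right _ ha0.le
  have hbd : ∀ z : R, nrm b z ≤ ρ → ∀ w : R, nrm b w ≤ N * nrm b 1 →
      nrm b (w + p * z) ≤ (N * nrm b 1 + K * nrm b p) * (ρ + 1) := by
    intro z hz w hw
    have h3 := nrm_add_le b w (p * z)
    have h4 := hK p z
    have h5 : K * nrm b p * nrm b z ≤ K * nrm b p * ρ := Nat.mul_le_mul_left _ hz
    nlinarith [Nat.zero_le (N * nrm b 1 * ρ), Nat.zero_le (K * nrm b p)]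
  refine ⟨(a0 : R) + p * x, (mem_box b).2 (hbd x hx _ h1), 1 + p * y,
    (mem_box b).2 (hbd y hy _ (Nat.le_mul_of_pos_left _ (by omega))), ?_, ?_⟩
  · exact ⟨1, -y, by ring⟩
  · have h6 : α = a0 + p * α' := by linear_combination hα'
    have h7 : Ideal.Quotient.mk (Ideal.span {p ^ n}) α =
        Ideal.Quotient.mk _ (a0 : R) + Ideal.Quotient.mk _ p * Ideal.Quotient.mk _ α' := by
      rw [← map_mul, ← map_add, ← h6]
    rw [map_add, map_add, map_mul, map_mul, map_one]
    linear_combination h7 - Ideal.Quotient.mk (Ideal.span {p ^ n}) p * hxy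

/-- The least `t` such that `a` is a fraction of elements of norm at most `N ^ t`. -/
noncomputable def lev (p : R) (n N : ℕ) (a : Q p n) : ℕ := sInf {t | Adm b p n (N ^ t) a}

omit [IsDomain R] in
lemma lev_le {N t : ℕ} {a : Q p n} (h : Adm b p n (N ^ t) a) : lev b p n N a ≤ t := Nat.sInf_le h

end adm

/-- The main estimate: on average, the level is `n / (2 d)` up to a bounded error. -/
theorem sum_lev_le (hd : 1 ≤ d) {p : R} {N : ℕ} (h : Digits p N) :
    (∀ n, ∀ a : Q p n, Adm b p n (N ^ lev b p n N a) a) ∧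
    ∃ C : ℕ, ∀ (n : ℕ) [Fintype (Q p n)],
      ∑ a : Q p n, ((n / (2 * d) - lev b p n N a) + (lev b p n N a - n / (2 * d))) ≤ C * N ^ n := by
  classical
  obtain ⟨K, hK1, hK⟩ := exists_mul_const b
  have hN := h.two_le
  have hNpos : 0 < N := by omega
  set C3 := N * nrm b 1 + K * nrm b p with hC3
  obtain ⟨c4, hc4⟩ : ∃ c4 : ℕ, C3 * 5 ≤ N ^ c4 :=
    ⟨C3 * 5, (Nat.lt_pow_self (by omega : 1 < N)).le⟩
  -- from a covering bound of the form `4 N ^ s` to a level
  have hcov : ∀ (n : ℕ) (a : Q p n) (s ρ : ℕ), ρ ≤ 4 * N ^ s →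
      (∀ c : Q p n, ∃ x ∈ box b ρ, ∃ y ∈ box b ρ,
        Ideal.Quotient.mk _ x - a * Ideal.Quotient.mk _ y = c) → Adm b p n (N ^ (c4 + s)) a := by
    intro n a s ρ hρ hc
    refine (adm_of_cover b h hK a hc).mono b ?_
    rw [pow_add]
    have h1 : 1 ≤ N ^ s := Nat.one_le_pow _ _ hNpos
    calc (N * nrm b 1 + K * nrm b p) * (ρ + 1) ≤ C3 * (5 * N ^ s) :=
          Nat.mul_le_mul_left _ (by omega)
      _ = (C3 * 5) * N ^ s := by ring
      _ ≤ _ := Nat.mul_le_mul_right _ hc4
  have htriv : ∀ (n : ℕ) (a : Q p n), Adm b p n (N ^ (c4 + n)) a := by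
    intro n a
    have : Finite (Q p n) := Finite.of_equiv _ (digitsEquiv h n)
    have : Fintype (Q p n) := Fintype.ofFinite _
    refine hcov n a n (4 * Fintype.card (Q p n)) (by rw [card_Q h]) ?_
    exact exists_cover_trivial b a
  have hadm : ∀ n, ∀ a : Q p n, Adm b p n (N ^ lev b p n N a) a := fun n a =>
    Nat.sInf_mem (s := {t | Adm b p n (N ^ t) a}) ⟨_, htriv n a⟩
  refine ⟨hadm, ?_⟩
  -- the constant
  refine ⟨9 ^ d + (c4 + 2 * d) + (2 * d) * (2 * (216 * K) ^ d), ?_⟩
  intro n _
  set q := n / (2 * d) with hq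
  have hqn : 2 * d * q ≤ n := Nat.mul_div_le n (2 * d)
  have hnq : n < 2 * d * q + 2 * d := by
    have := Nat.lt_mul_div_succ n (show 0 < 2 * d by omega)
    rw [mul_add, mul_one] at this
    exact this
  have hcard : (univ : Finset (Q p n)).card = N ^ n := by rw [Finset.card_univ, card_Q h]
  set M := N ^ (2 * d) with hM
  have hM2 : 2 ≤ M := by
    calc 2 ≤ N := hN
      _ = N ^ 1 := (pow_one N).symm
      _ ≤ N ^ (2 * d) := Nat.pow_le_pow_right hNpos (by omega)
  have hMq : M ^ q ≤ N ^ n := by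
    rw [hM, ← pow_mul]
    exact Nat.pow_le_pow_right hNpos hqn
  have hgeom : ∀ k, ∑ t ∈ range k, M ^ t ≤ M ^ k := by
    intro k
    exact (Nat.geomSum_lt hM2 (fun x hx => Finset.mem_range.1 hx)).le
  -- lower deviation
  have hlow : ∑ a : Q p n, (q - lev b p n N a) ≤ 9 ^ d * N ^ n := by
    have h1 : ∀ a : Q p n, q - lev b p n N a ≤
        ∑ t ∈ range q, if Adm b p n (N ^ t) a then 1 else 0 := by
      intro a
      rw [← Finset.card_filter]
      have h2 : Finset.Ico (lev b p n N a) q ⊆
          (range q).filter fun t => Adm b p n (N ^ t) a := by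
        intro t ht
        rw [Finset.mem_Ico] at ht
        refine Finset.mem_filter.2 ⟨Finset.mem_range.2 ht.2, ?_⟩
        exact (hadm n a).mono b (Nat.pow_le_pow_right hNpos ht.1)
      have h3 := Finset.card_le_card h2
      rwa [Nat.card_Ico] at h3
    calc ∑ a : Q p n, (q - lev b p n N a)
        ≤ ∑ a : Q p n, ∑ t ∈ range q, (if Adm b p n (N ^ t) a then 1 else 0) :=
          Finset.sum_le_sum fun a _ => h1 a
      _ = ∑ t ∈ range q, ∑ a : Q p n, (if Adm b p n (N ^ t) a then 1 else 0) :=
          Finset.sum_comm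
      _ ≤ ∑ t ∈ range q, 9 ^ d * M ^ t := by
          refine Finset.sum_le_sum fun t _ => ?_
          rw [← Finset.card_filter]
          refine (card_adm_le b (N ^ t)).trans ?_
          have h4 : 1 ≤ N ^ t := Nat.one_le_pow _ _ hNpos
          calc (2 * N ^ t + 1) ^ d * (2 * N ^ t + 1) ^ d ≤ (3 * N ^ t) ^ d * (3 * N ^ t) ^ d :=
                Nat.mul_le_mul (Nat.pow_le_pow_left (by omega) d)
                  (Nat.pow_le_pow_left (by omega) d)
            _ = 9 ^ d * M ^ t := by
                rw [hM, ← mul_pow, ← pow_mul]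
                have : 3 * N ^ t * (3 * N ^ t) = 9 * N ^ (2 * t) := by ring
                rw [this, mul_pow, ← pow_mul]
                ring_nf
      _ = 9 ^ d * ∑ t ∈ range q, M ^ t := by rw [Finset.mul_sum]
      _ ≤ 9 ^ d * N ^ n := Nat.mul_le_mul_left _ ((hgeom q).trans hMq)
  -- upper deviation
  have hup1 : ∀ a : Q p n, lev b p n N a - q ≤ (c4 + 2 * d) +
      (2 * d) * ∑ t ∈ Finset.Icc 1 q, if Short b p n (2 * N ^ t) a then 1 else 0 := by
    intro a
    set T := Nat.findGreatest (fun t => t = 0 ∨ ¬ Short b p n (2 * N ^ t) a) q with hT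
    have hTq : T ≤ q := Nat.findGreatest_le q
    have hTspec : T = 0 ∨ ¬ Short b p n (2 * N ^ T) a :=
      Nat.findGreatest_spec (P := fun t => t = 0 ∨ ¬ Short b p n (2 * N ^ t) a)
        (Nat.zero_le q) (Or.inl rfl)
    have hTn : 2 * d * T ≤ n := (Nat.mul_le_mul_left _ hTq).trans hqn
    have hlev : lev b p n N a ≤ c4 + (n - 2 * d * T + T) := by
      apply lev_le
      rcases hTspec with h0 | hns
      · rw [h0]
        simpa using htriv n a
      · refine hcov n a _ _ ?_ (exists_cover b (Nat.one_le_pow _ _ hNpos) a hns)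
        rw [card_Q h]
        have h5 : N ^ n / ((2 * N ^ T + 1) ^ d * (2 * N ^ T + 1) ^ d) ≤ N ^ (n - 2 * d * T) := by
          have h6 : N ^ (2 * d * T) ≤ (2 * N ^ T + 1) ^ d * (2 * N ^ T + 1) ^ d := by
            calc N ^ (2 * d * T) = (N ^ T) ^ d * (N ^ T) ^ d := by
                  rw [← pow_mul, ← pow_add]; ring_nf
              _ ≤ _ := Nat.mul_le_mul (Nat.pow_le_pow_left (by omega) d)
                  (Nat.pow_le_pow_left (by omega) d)
          calc N ^ n / ((2 * N ^ T + 1) ^ d * (2 * N ^ T + 1) ^ d)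
              ≤ N ^ n / N ^ (2 * d * T) :=
                Nat.div_le_div_left h6 (Nat.pow_pos hNpos)
            _ = N ^ (n - 2 * d * T) := Nat.pow_div hTn hNpos
        have h7 : 1 ≤ N ^ (n - 2 * d * T) := Nat.one_le_pow _ _ hNpos
        calc (3 * (N ^ n / ((2 * N ^ T + 1) ^ d * (2 * N ^ T + 1) ^ d)) + 1) * N ^ T
            ≤ (4 * N ^ (n - 2 * d * T)) * N ^ T := Nat.mul_le_mul_right _ (by omega)
          _ = 4 * N ^ (n - 2 * d * T + T) := by rw [pow_add]; ring
    have hsum : q - T ≤ ∑ t ∈ Finset.Icc 1 q, if Short b p n (2 * N ^ t) a then 1 else 0 := by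
      rw [← Finset.card_filter]
      have h2 : Finset.Ioc T q ⊆
          (Finset.Icc 1 q).filter fun t => Short b p n (2 * N ^ t) a := by
        intro t ht
        rw [Finset.mem_Ioc] at ht
        refine Finset.mem_filter.2 ⟨Finset.mem_Icc.2 ⟨by omega, ht.2⟩, ?_⟩
        have h8 := Nat.findGreatest_is_greatest
          (P := fun t => t = 0 ∨ ¬ Short b p n (2 * N ^ t) a) ht.1 ht.2
        push Not at h8
        exact h8.2
      have h3 := Finset.card_le_card h2
      rwa [Nat.card_Ioc] at h3
    set S := ∑ t ∈ Finset.Icc 1 q, if Short b p n (2 * N ^ t) a then 1 else 0 with hS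
    -- arithmetic
    obtain ⟨u, hu⟩ : ∃ u, q = T + u := ⟨q - T, by omega⟩
    have huS : u ≤ S := by omega
    have h9 : 2 * d * u ≤ 2 * d * S := Nat.mul_le_mul_left _ huS
    have h10 : 2 * d * q = 2 * d * T + 2 * d * u := by rw [hu]; ring
    omega
  have hup : ∑ a : Q p n, (lev b p n N a - q) ≤
      ((c4 + 2 * d) + (2 * d) * (2 * (216 * K) ^ d)) * N ^ n := by
    calc ∑ a : Q p n, (lev b p n N a - q)
        ≤ ∑ a : Q p n, ((c4 + 2 * d) +
          (2 * d) * ∑ t ∈ Finset.Icc 1 q, if Short b p n (2 * N ^ t) a then 1 else 0) :=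
          Finset.sum_le_sum fun a _ => hup1 a
      _ = (c4 + 2 * d) * N ^ n + (2 * d) * ∑ t ∈ Finset.Icc 1 q,
          ∑ a : Q p n, (if Short b p n (2 * N ^ t) a then 1 else 0) := by
          rw [Finset.sum_add_distrib, Finset.sum_const, hcard, ← Finset.mul_sum,
            Finset.sum_comm, smul_eq_mul, mul_comm (N ^ n)]
      _ ≤ (c4 + 2 * d) * N ^ n + (2 * d) * ∑ t ∈ Finset.Icc 1 q, (216 * K) ^ d * M ^ t := by
          refine Nat.add_le_add_left (Nat.mul_le_mul_left _ (Finset.sum_le_sum fun t _ => ?_)) _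
          rw [← Finset.card_filter]
          have h4 : 1 ≤ N ^ t := Nat.one_le_pow _ _ hNpos
          refine (card_short_le b hd hK1 hK (m := 2 * N ^ t) (by omega)).trans (le_of_eq ?_)
          have h5 : 54 * K * (2 * N ^ t) ^ 2 = (216 * K) * N ^ (2 * t) := by ring
          rw [h5, mul_pow, hM, ← pow_mul, ← pow_mul]
          ring_nf
      _ ≤ (c4 + 2 * d) * N ^ n + (2 * d) * ((216 * K) ^ d * (2 * N ^ n)) := by
          refine Nat.add_le_add_left (Nat.mul_le_mul_left _ ?_) _
          rw [← Finset.mul_sum]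
          refine Nat.mul_le_mul_left _ ?_
          have h6 : ∑ t ∈ Finset.Icc 1 q, M ^ t ≤ ∑ t ∈ range (q + 1), M ^ t := by
            refine Finset.sum_le_sum_of_subset ?_
            intro t ht
            rw [Finset.mem_Icc] at ht
            exact Finset.mem_range.2 (by omega)
          rw [Finset.sum_range_succ] at h6
          have h7 := hgeom q
          omega
      _ = _ := by ring
  rw [Finset.sum_add_distrib]
  calc _ ≤ 9 ^ d * N ^ n + ((c4 + 2 * d) + (2 * d) * (2 * (216 * K) ^ d)) * N ^ n :=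
        add_le_add hlow hup
    _ = _ := by ring

end Pool.Agent.H84.PiAdic
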